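import Pool.Agent.Q136.BM.All

/-!
# MP_2d55ae_co: Bohr sets in sums of endomorphic images of partition cells

`bohr χ η` is the Bohr set of the characters `χ j : G → S¹` and the radius `η`,
`(φ j).range.index` is the index of the image of `φ j` (`0` if it is infinite).
-/

namespace Pool.Agent.Results.MP_2d55ae_co.PartitionCells

open Q136.BM

universe u

/-- Let `d ≥ 3`, `r ≥ 1` and let `φ₁, …, φ_d` be endomorphisms of an abelian group `G` whose images
have finite index, such that `∑_{j ∈ S} φ_j = 0` for some nonempty `S`. Then for every partition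
of `G` into `r` sets there is a cell `A i` such that `φ₁(A i) + ⋯ + φ_d(A i)` contains a Bohr set
whose rank and radius depend only on `r` and on the indices. -/
theorem result (d : ℕ) (hd : 3 ≤ d) (r : ℕ) (hr : 0 < r) (n : Fin d → ℕ) (hn : ∀ j, n j ≠ 0) :
    ∃ (k : ℕ) (η : ℝ), 0 < η ∧ ∀ (G : Type u) [AddCommGroup G] (φ : Fin d → G →+ G),
      (∀ j, (φ j).range.index = n j) → (∃ S : Finset (Fin d), S.Nonempty ∧ ∑ j ∈ S, φ j = 0) →
      ∀ A : Fin r → Set G, (∀ x, ∃ i, x ∈ A i) → (∀ i j, i ≠ j → Disjoint (A i) (A j)) →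
      ∃ i, ∃ χ : Fin k → AddChar G Circle,
        bohr χ η ⊆ {g : G | ∃ x : Fin d → G, (∀ j, x j ∈ A i) ∧ ∑ j, φ j (x j) = g} :=
  partition_final part1_full part2_full part3_full d hd r hr n hn

end Pool.Agent.Results.MP_2d55ae_co.PartitionCells
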